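import Pool.Agent.K1H76.HB.Stm

/-! Project HB: the energy density of the harmonic map in terms of the Higgs field. -/

namespace Pool.Agent.K1H76.HB
open Matrix Complex Filter Topology Set
open scoped ComplexOrder

/-- entrywise real directional derivative of `F` in the direction `v` -/
noncomputable def dir (v : ℂ) (F : ℂ → M2) (z : ℂ) : M2 := Matrix.of fun i j => fderiv ℝ (fun w => F w i j) z v

/-- `tr((f⁻¹ f_x)²) + tr((f⁻¹ f_y)²)` -/
noncomputable def edens (f : ℂ → M2) (z : ℂ) : ℝ :=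
  (((f z)⁻¹ * dir 1 f z) * ((f z)⁻¹ * dir 1 f z)).trace.re +
  (((f z)⁻¹ * dir I f z) * ((f z)⁻¹ * dir I f z)).trace.re

/-- `P` is a frame of flat sections of `D_h + s φ + s φ^{*h}` on `U` -/
structure IsFlat (U : Set ℂ) (Φ : ℂ → M2) (s : ℝ) (h P : ℂ → M2) : Prop where
  diff : ∀ i j, DifferentiableOn ℝ (fun z => P z i j) U
  det : ∀ z ∈ U, (P z).det = 1
  dz : ∀ z ∈ U, dzM P z = -((conn h z + (s : ℂ) • Φ z) * P z)
  db : ∀ z ∈ U, dbM P z = -(((s : ℂ) • adj (h z) (Φ z)) * P z)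

/-- EF -/
def S_EF : Prop := ∀ (U : Set ℂ) (Φ : ℂ → M2) (s : ℝ) (h P : ℂ → M2), IsOpen U → C2 U h →
  (∀ z ∈ U, (h z).PosDef) → (∀ z ∈ U, (h z).det = 1) → IsFlat U Φ s h P →
  ∀ z ∈ U, edens (fun w => (P w)ᴴ * h w * P w) z = 16 * en s (h z) (Φ z)

end Pool.Agent.K1H76.HB
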