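import Pool.Agent.K1H76.HB.Stm

/-! Project HB: assembly of the maximum principle. -/

namespace Pool.Agent.K1H76.HB
open Matrix Complex Filter Topology Set
open scoped ComplexOrder

theorem lap_eq_zero {U : Set ℂ} (hU : IsOpen U) {u : ℂ → ℝ} {m : ℝ} (h : ∀ z ∈ U, u z = m) {z : ℂ} (hz : z ∈ U) :
    lap u z = 0 := by
  have h0 : ∀ w ∈ U, fderiv ℝ u w = 0 := by
    intro w hw
    have he : u =ᶠ[𝓝 w] fun _ => m := by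
      filter_upwards [hU.mem_nhds hw] with v hv using h v hv
    rw [he.fderiv_eq]
    simp
  have h1 : ∀ v : ℂ, (fun w => fderiv ℝ u w v) =ᶠ[𝓝 z] fun _ => (0 : ℝ) := by
    intro v
    filter_upwards [hU.mem_nhds hz] with w hw
    rw [h0 w hw]; rfl
  unfold lap
  rw [(h1 1).fderiv_eq, (h1 I).fderiv_eq]
  simp

theorem key (hCA : S_CA) (hCB : S_CB) (hPS : S_PS) (hAG : S_AG) (hSMP : S_SMP) {U : Set ℂ} (hU : IsOpen U)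
    (hUc : IsPreconnected U) {Φ : ℂ → M2} (hΦ : ∀ z ∈ U, (Φ z).trace = 0) {s₁ s₂ : ℝ} (hs₁ : 0 < s₁)
    (hs : s₁ < s₂) {h₁ h₂ : ℂ → M2} (H₁ : IsSol U Φ s₁ h₁) (H₂ : IsSol U Φ s₂ h₂)
    (hmax : ∃ z₀ ∈ U, ∀ z ∈ U, ((h₁ z)⁻¹ * h₂ z).trace.re ≤ ((h₁ z₀)⁻¹ * h₂ z₀).trace.re) {z : ℂ} (hz : z ∈ U) :
    en s₁ (h₁ z) (Φ z) ≤ en s₂ (h₂ z) (Φ z) := by
  obtain ⟨z₀, hz₀, hm⟩ := hmax
  set u : ℂ → ℝ := fun w => ((h₁ w)⁻¹ * h₂ w).trace.re with hu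
  set m := u z₀ with hmdef
  obtain ⟨hcd, hlap⟩ := hCA U h₁ h₂ hU H₁.c2 H₂.c2 H₁.det H₂.det
  have hcb := hCB U h₁ h₂ hU H₁.c2 H₂.c2 H₁.pos H₂.pos
  have hL : ∀ w ∈ U, Qt s₁ s₂ (h₁ w) (h₂ w) (Φ w) * 4 ≤ lap u w := by
    intro w hw
    have h1 := hlap w hw
    rw [hcb w hw, H₁.eqn w hw, H₂.eqn w hw, Complex.add_re] at h1
    have h2 := hPS (h₁ w) (h₂ w) (dbM (fun w => (h₁ w)⁻¹ * h₂ w) w) (H₁.pos w hw) (H₂.pos w hw)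
    have h3 : lap u w = 4 * (Qt s₁ s₂ (h₁ w) (h₂ w) (Φ w) +
      (dbM (fun w => (h₁ w)⁻¹ * h₂ w) w * ((h₂ w)⁻¹ * (dbM (fun w => (h₁ w)⁻¹ * h₂ w) w)ᴴ * h₁ w)).trace.re) := h1
    rw [h3]
    linarith
  rcases le_or_gt m (s₂ / s₁ + s₁ / s₂) with hle | hgt
  · exact (hAG s₁ s₂ (h₁ z) (h₂ z) (Φ z) hs₁ hs (H₁.pos z hz) (H₂.pos z hz) (H₁.det z hz) (H₂.det z hz)
      (hΦ z hz)).1 ((hm z hz).trans hle)
  · have hall : ∀ w ∈ U, u w = m := by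
      refine hSMP U u (s₂ / s₁ + s₁ / s₂) m hU hUc hcd hgt hm ⟨z₀, hz₀, rfl⟩ ?_
      intro w hw hcw
      have h4 := ((hAG s₁ s₂ (h₁ w) (h₂ w) (Φ w) hs₁ hs (H₁.pos w hw) (H₂.pos w hw) (H₁.det w hw)
        (H₂.det w hw) (hΦ w hw)).2 hcw).1
      have := hL w hw
      linarith
    have h5 := (hAG s₁ s₂ (h₁ z) (h₂ z) (Φ z) hs₁ hs (H₁.pos z hz) (H₂.pos z hz) (H₁.det z hz) (H₂.det z hz)
      (hΦ z hz)).2 (by have := hall z hz; simp only [hu] at this; rw [this]; exact hgt)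
    refine h5.2 (le_antisymm ?_ h5.1)
    have h6 := hL z hz
    rw [lap_eq_zero hU hall hz] at h6
    linarith

end Pool.Agent.K1H76.HB
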