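import Mathlib

/-! Project HB (MP_8bb00a_gt, rank two): pointwise monotonicity of the energy density along the `C*`-flow for all
`SL(2,C)` Higgs bundles.  Definitions and the named pieces. -/

namespace Pool.Agent.K1H76.HB
open Matrix Complex Filter Topology Set
open scoped ComplexOrder

abbrev M2 := Matrix (Fin 2) (Fin 2) ℂ

/-- `∂/∂z` -/
noncomputable def dz (f : ℂ → ℂ) (z : ℂ) : ℂ := (fderiv ℝ f z 1 - I * fderiv ℝ f z I) / 2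
/-- `∂/∂z̄` -/
noncomputable def db (f : ℂ → ℂ) (z : ℂ) : ℂ := (fderiv ℝ f z 1 + I * fderiv ℝ f z I) / 2
/-- entrywise `∂/∂z` -/
noncomputable def dzM (F : ℂ → M2) (z : ℂ) : M2 := Matrix.of fun i j => dz (fun w => F w i j) z
/-- entrywise `∂/∂z̄` -/
noncomputable def dbM (F : ℂ → M2) (z : ℂ) : M2 := Matrix.of fun i j => db (fun w => F w i j) z
/-- the Laplacian of a real function of `x + i y` -/
noncomputable def lap (u : ℂ → ℝ) (z : ℂ) : ℝ :=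
  fderiv ℝ (fun w => fderiv ℝ u w 1) z 1 + fderiv ℝ (fun w => fderiv ℝ u w I) z I

/-- the adjoint of `A` for the Hermitian form `η† h ξ` -/
noncomputable def adj (h A : M2) : M2 := h⁻¹ * Aᴴ * h
/-- the commutator `[A, A^*]` -/
noncomputable def com (h A : M2) : M2 := A * adj h A - adj h A * A
/-- the energy `s² tr (A A^*)` -/
noncomputable def en (s : ℝ) (h A : M2) : ℝ := s ^ 2 * (A * adj h A).trace.re
/-- the curvature term -/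
noncomputable def Qt (s₁ s₂ : ℝ) (h₁ h₂ A : M2) : ℝ :=
  (h₁⁻¹ * h₂ * (((s₂ : ℂ) ^ 2) • com h₂ A - ((s₁ : ℂ) ^ 2) • com h₁ A)).trace.re
/-- the connection form `h⁻¹ ∂h` -/
noncomputable def conn (h : ℂ → M2) (z : ℂ) : M2 := (h z)⁻¹ * dzM h z

/-- `C²` on `U`, entrywise -/
def C2 (U : Set ℂ) (F : ℂ → M2) : Prop := ∀ i j, ContDiffOn ℝ 2 (fun z => F z i j) U

/-- `h` solves Hitchin's equation `F_h + s² [φ, φ^{*h}] = 0` on `U` for `φ = Φ dz`, and `det h = 1`. -/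
structure IsSol (U : Set ℂ) (Φ : ℂ → M2) (s : ℝ) (h : ℂ → M2) : Prop where
  c2 : C2 U h
  pos : ∀ z ∈ U, (h z).PosDef
  det : ∀ z ∈ U, (h z).det = 1
  eqn : ∀ z ∈ U, dbM (conn h) z = ((s : ℂ) ^ 2) • com (h z) (Φ z)

/-- CA : the Laplacian of `tr (h₁⁻¹ h₂)`. -/
def S_CA : Prop := ∀ (U : Set ℂ) (h₁ h₂ : ℂ → M2), IsOpen U → C2 U h₁ → C2 U h₂ →
  (∀ z ∈ U, (h₁ z).det = 1) → (∀ z ∈ U, (h₂ z).det = 1) →
  ContDiffOn ℝ 2 (fun w => ((h₁ w)⁻¹ * h₂ w).trace.re) U ∧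
  ∀ z ∈ U, lap (fun w => ((h₁ w)⁻¹ * h₂ w).trace.re) z =
    4 * ((((h₁ z)⁻¹ * h₂ z) * (dbM (conn h₂) z - dbM (conn h₁) z)).trace +
      (dbM (fun w => (h₁ w)⁻¹ * h₂ w) z * (conn h₂ z - conn h₁ z)).trace).re

/-- CB : the difference of the connections is an adjoint of `∂̄H`. -/
def S_CB : Prop := ∀ (U : Set ℂ) (h₁ h₂ : ℂ → M2), IsOpen U → C2 U h₁ → C2 U h₂ →
  (∀ z ∈ U, (h₁ z).PosDef) → (∀ z ∈ U, (h₂ z).PosDef) →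
  ∀ z ∈ U, conn h₂ z - conn h₁ z = (h₂ z)⁻¹ * (dbM (fun w => (h₁ w)⁻¹ * h₂ w) z)ᴴ * h₁ z

/-- PS : positivity. -/
def S_PS : Prop := ∀ h₁ h₂ X : M2, h₁.PosDef → h₂.PosDef → 0 ≤ (X * (h₂⁻¹ * Xᴴ * h₁)).trace.re

/-- AG : the pointwise algebra in rank two. -/
def S_AG : Prop := ∀ (s₁ s₂ : ℝ) (h₁ h₂ A : M2), 0 < s₁ → s₁ < s₂ → h₁.PosDef → h₂.PosDef →
  h₁.det = 1 → h₂.det = 1 → A.trace = 0 →
  ((h₁⁻¹ * h₂).trace.re ≤ s₂ / s₁ + s₁ / s₂ → en s₁ h₁ A ≤ en s₂ h₂ A) ∧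
  (s₂ / s₁ + s₁ / s₂ < (h₁⁻¹ * h₂).trace.re → 0 ≤ Qt s₁ s₂ h₁ h₂ A ∧
    (Qt s₁ s₂ h₁ h₂ A = 0 → en s₁ h₁ A ≤ en s₂ h₂ A))

/-- SMP : strong maximum principle for functions subharmonic near their maxima. -/
def S_SMP : Prop := ∀ (U : Set ℂ) (u : ℂ → ℝ) (c m : ℝ), IsOpen U → IsPreconnected U → ContDiffOn ℝ 2 u U →
  c < m → (∀ z ∈ U, u z ≤ m) → (∃ z ∈ U, u z = m) → (∀ z ∈ U, c < u z → 0 ≤ lap u z) → ∀ z ∈ U, u z = m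

end Pool.Agent.K1H76.HB
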